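import Pool.Agent.Helper35.HS.Main

/-!
# Isomorphisms between the posets of hyperbolic structures of free groups

Let `m > n ≥ 2` and let `f` be an isomorphism of posets from the hyperbolic structures of the free group
`F m` to those of `F n`. Then for at least `2 ^ m - 1 - 2 ^ n` of the `2 ^ m - 1` nontrivial homomorphisms
`ε : F m →* ℤˣ` there are lineal structures whose orientation character is `ε`, and `f` maps none
of them to a lineal structure. The definitions (`H`, `IsLineal`, `HasChar`, `F`) are in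
`Pool.Agent.Helper35.HS.Defs`.
-/

set_option autoImplicit false

namespace Pool.Agent.Results.MP_68fffa_al.LinealCharacters

open Pool.Agent.Helper35.HS

theorem result (m n : ℕ) (hn : 2 ≤ n) (hmn : n < m) (f : H (F m) ≃o H (F n)) :
    ∃ E : Finset (F m →* ℤˣ), 2 ^ m ≤ E.card + 2 ^ n + 1 ∧ ∀ ε ∈ E, ε ≠ 1 ∧
      (∃ s, IsLineal s ∧ HasChar ε s) ∧ ∀ s, IsLineal s → HasChar ε s → ¬ IsLineal (f s) := by
  classical
  have hfin : Finite (F m →* ℤˣ) :=
    Finite.of_equiv (Fin m → ℤˣ) (FreeGroup.lift : (Fin m → ℤˣ) ≃ (F m →* ℤˣ))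
  have : Fintype (F m →* ℤˣ) := Fintype.ofFinite _
  refine ⟨Finset.univ.filter fun ε =>
    ε ≠ 1 ∧ ∀ s, IsLineal s → HasChar ε s → ¬ IsLineal (f s), ?_, ?_⟩
  · have h := count f
    rw [Nat.card_eq_fintype_card, Fintype.card_subtype] at h
    omega
  · intro ε hε
    rw [Finset.mem_filter] at hε
    exact ⟨hε.2.1, exists_lineal (by omega) ε hε.2.1, hε.2.2⟩

end Pool.Agent.Results.MP_68fffa_al.LinealCharacters
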